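import Mathlib
import Pool.Agent.R685.PS.All

/-! The Patterson-Sullivan intersection function on Outer space is bounded below by `1`. -/

open MeasureTheory
open scoped ENNReal

namespace Pool.Agent.Results.MP_fee052_al.PSIntersectionLowerBound

open Pool.Agent.R685.PS

/-- For all `N ≥ 2` and all `T, S` in `cv_N`, with Patterson-Sullivan currents `μT`, `μS`
normalised by `⟨T, μT⟩ = 1 = ⟨S, μS⟩`, one has `⟨S, μT⟩ * ⟨T, μS⟩ ≥ 1`. -/
theorem result : ∀ (N : ℕ), 2 ≤ N → ∀ (T S : CV N) (μT μS : Measure (Bd N × Bd N)),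
    T.IsPSCurrent μT → S.IsPSCurrent μS → 1 ≤ S.inter μT * T.inter μS :=
  fun N hN T S μT μS hT hS => (All.all N hN T S μT μS hT hS).1

end Pool.Agent.Results.MP_fee052_al.PSIntersectionLowerBound
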